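import Pool.Agent.TH700.UG.Pe
import Pool.Agent.W888.GX.Thr
import Pool.Agent.H30R2.NS.Gap

set_option autoImplicit false

/-!
Formulas with three literals per clause that are far from satisfiable and have a pseudo-expectation
of linear degree which satisfies all clauses.
-/

namespace Pool.Agent.TH700.UG

open Finset Pool.Agent.W888.GX Matrix

/-- the indicator that equation `j` is violated -/
def vj {n m k : ℕ} (c : Fin m → Fin k → Fin n) (b : Fin m → ZMod 2) (j : Fin m)
    (x : Fin n → ZMod 2) : ℝ := if ∑ s, x (c j s) = b j then 0 else 1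

lemma Lf_vj {n m k : ℕ} (l : (Fin n → ZMod 2) → ℝ) (h0 : l 0 = 1)
    (c : Fin m → Fin k → Fin n) (b : Fin m → ZMod 2) (j : Fin m) :
    Lf l (vj c b j) = (1 - sg (b j) * l (row c j)) / 2 := by
  have h1 : vj c b j = (1 / 2 : ℝ) • (chi 0 : (Fin n → ZMod 2) → ℝ) -
      (sg (b j) / 2) • (chi (row c j) : (Fin n → ZMod 2) → ℝ) := by
    funext x
    unfold vj
    rw [Pi.sub_apply, Pi.smul_apply, Pi.smul_apply, chi_zero, smul_eq_mul, smul_eq_mul]
    unfold chi
    rw [row_dot]
    rcases z2 (∑ s, x (c j s)) with h | h <;> rcases z2 (b j) with h' | h'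
    · rw [h, h', if_pos rfl, sg_zero]; norm_num
    · rw [h, h', if_neg (by decide), sg_zero, sg_one]; norm_num
    · rw [h, h', if_neg (by decide), sg_zero, sg_one]; norm_num
    · rw [h, h', if_pos rfl, sg_one]; norm_num
  rw [h1, map_sub, map_smul, map_smul, Lf_chi, Lf_chi, h0, smul_eq_mul, smul_eq_mul]
  ring

theorem exists_formula (δ : ℝ) (hδ : 0 < δ) :
    ∃ M : ℕ, 1 ≤ M ∧ ∃ c0 : ℝ, 0 < c0 ∧ ∃ n0 : ℕ, ∀ n : ℕ, n0 ≤ n →
      ∃ (I : Type) (_ : Fintype I) (F : I → Clause 3 n) (D : ℕ)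
        (L : ((Fin n → ZMod 2) → ℝ) →ₗ[ℝ] ℝ),
        Fintype.card I ≤ M * n ∧
        (∀ x, (1 / 8 - δ) * (Fintype.card I : ℝ) ≤ (falsified F x : ℝ)) ∧
        c0 * n ≤ D ∧ IsPseudoExpectation D L ∧
        ∀ i, ∀ u : (Fin n → ZMod 2) → ℝ, (∀ x, (Satisfies x (F i) → u x = 0) ∧
          (¬ Satisfies x (F i) → u x = 1)) → L u = 0 := by
  classical
  obtain ⟨q, hq⟩ := exists_nat_gt (1 / δ)
  have hq0 : (0 : ℝ) < q := lt_trans (by positivity) hq
  obtain ⟨M, hM⟩ := exists_nat_gt (Real.log 2 / (2 * δ ^ 2))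
  have hlog : 0 < Real.log 2 := Real.log_pos (by norm_num)
  have hM0 : (0 : ℝ) < M := lt_of_le_of_lt (by positivity) hM
  have hM1 : 1 ≤ M := by
    have : 0 < M := by exact_mod_cast hM0
    omega
  obtain ⟨ξ, hξd⟩ : ∃ ξ : ℝ, ξ = 1 / (6 * 32 ^ q) := ⟨_, rfl⟩
  have hξ0 : 0 < ξ := by rw [hξd]; positivity
  have hpξ : (32 : ℝ) ^ q * (6 * ξ) ≤ 1 := by
    rw [hξd]
    apply le_of_eq
    have : (0 : ℝ) < 32 ^ q := by positivity
    field_simp
  obtain ⟨K, hK⟩ : ∃ K : ℕ, K = 16384 * 3 ^ 12 * M ^ 4 := ⟨_, rfl⟩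
  have hKpos : 0 < K := by
    rw [hK]
    have : 0 < M := by omega
    positivity
  have hK0 : (0 : ℝ) < K := by exact_mod_cast hKpos
  refine ⟨4 * M, by omega, 1 / (16 * (K : ℝ)), by positivity, 24 * K + 6 * 32 ^ q, ?_⟩
  intro n hn
  have hn1 : 1 ≤ n := by omega
  have hn0 : (0 : ℝ) < n := by exact_mod_cast hn1
  obtain ⟨r0, hr0⟩ : ∃ r0, r0 = n / K := ⟨_, rfl⟩
  have hr24 : 24 ≤ r0 := by
    rw [hr0, Nat.le_div_iff_mul_le hKpos]
    omega
  have hrn : r0 * K ≤ n := by
    rw [hr0]
    exact Nat.div_mul_le_self n K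
  obtain ⟨c, hc1, hc2⟩ := exists_hyp3 (M * n) n (2 * r0) q ξ hn1
    (Nat.le_mul_of_pos_left n hM1)
    (by
      have h4 : 4 ≤ K := by
        rw [hK]
        calc 4 ≤ 16384 * 3 ^ 12 * 1 := by norm_num
          _ ≤ _ := Nat.mul_le_mul_left _ (Nat.one_le_pow _ _ (by omega))
      calc 2 * (2 * r0) = r0 * 4 := by ring
        _ ≤ r0 * K := Nat.mul_le_mul_left _ h4
        _ ≤ n := hrn)
    (by
      have h1 : (r0 : ℝ) * K ≤ n := by exact_mod_cast hrn
      push_cast
      calc 8192 * 3 ^ 12 * ((M : ℝ) * n) ^ 4 * (2 * r0) =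
            ((r0 : ℝ) * (16384 * 3 ^ 12 * M ^ 4)) * n ^ 4 := by ring
        _ = ((r0 : ℝ) * K) * n ^ 4 := by
            rw [hK]
            push_cast
            ring
        _ ≤ n * n ^ 4 := mul_le_mul_of_nonneg_right h1 (by positivity)
        _ = (n : ℝ) ^ 5 := by ring)
    (by
      rw [hξd, one_div, inv_mul_eq_div, one_le_div (by positivity)]
      exact_mod_cast (by omega : 6 * 32 ^ q ≤ n)) hpξ
  obtain ⟨b, hb⟩ := Pool.Agent.H30R2.NS.exists_far (m := M * n) (γ := δ) hδ (by
    rw [Fintype.card_fin]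
    push_cast
    rw [div_lt_iff₀ (by positivity)] at hM
    calc Real.log 2 * n < (M * (2 * δ ^ 2)) * n := mul_lt_mul_of_pos_right hM hn0
      _ = _ := by ring) (fun p : Fin (M * n) × Fin 3 => c p.1 p.2)
  -- the good equations
  obtain ⟨G, hG⟩ : ∃ G : Finset (Fin (M * n)), G = univ.filter fun j => ¬ Bad ∅ (c j) := ⟨_, rfl⟩
  have hGc : (q : ℝ) * (Gᶜ.card : ℝ) ≤ M * n := by
    have h3 := hc2 ∅ (by rw [Finset.card_empty]; push_cast; positivity)
    have h4 : q * Gᶜ.card ≤ M * n := by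
      have h5 : Gᶜ = univ.filter fun j => Bad ∅ (c j) := by
        rw [hG]
        ext j
        simp only [mem_compl, mem_filter, mem_univ, true_and, not_not]
      rw [h5]
      convert h3 using 2
    exact_mod_cast h4
  have hGc' : (Gᶜ.card : ℝ) ≤ δ * (M * n) := by
    have h3 : 1 < q * δ := by
      rwa [div_lt_iff₀ hδ] at hq
    have h4 : (0 : ℝ) ≤ (Gᶜ.card : ℝ) := Nat.cast_nonneg _
    calc (Gᶜ.card : ℝ) = 1 * Gᶜ.card := by ring
      _ ≤ (q * δ) * Gᶜ.card := mul_le_mul_of_nonneg_right h3.le h4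
      _ = δ * (q * Gᶜ.card) := by ring
      _ ≤ δ * (M * n) := mul_le_mul_of_nonneg_left hGc hδ.le
  let e : Fin G.card ≃ G := G.equivFin.symm
  obtain ⟨c', hc'⟩ : ∃ c' : Fin G.card → Fin 3 → Fin n, c' = fun j => c (e j).1 := ⟨_, rfl⟩
  obtain ⟨b', hb'⟩ : ∃ b' : Fin G.card → ZMod 2, b' = fun j => b (e j).1 := ⟨_, rfl⟩
  have hviol : ∀ x, viol c b x ≤ viol c' b' x + Gᶜ.card := by
    intro x
    have h1 : viol c' b' x = ∑ j ∈ G, vj c b j x := by
      unfold viol
      rw [hc', hb', ← Finset.sum_coe_sort G]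
      exact Equiv.sum_comp e fun j : G => vj c b j.1 x
    have h2 : viol c b x = ∑ j ∈ G, vj c b j x + ∑ j ∈ Gᶜ, vj c b j x :=
      (Finset.sum_add_sum_compl G _).symm
    have h3 : ∑ j ∈ Gᶜ, vj c b j x ≤ Gᶜ.card := by
      calc ∑ j ∈ Gᶜ, vj c b j x ≤ ∑ _j ∈ Gᶜ, (1 : ℝ) := by
            refine Finset.sum_le_sum fun j _ => ?_
            unfold vj
            split_ifs <;> norm_num
        _ = _ := by rw [Finset.sum_const, nsmul_eq_mul, mul_one]
    rw [h1, h2]
    linarith
  have hGm : (G.card : ℝ) ≤ M * n := by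
    have := Finset.card_le_univ G
    rw [Fintype.card_fin] at this
    exact_mod_cast this
  -- the pseudo-expectation
  have hE : Exp (row c) (∅ : Finset (Fin n))ᶜ G (2 * r0) := by
    refine exp3_of c hc1 ∅ G fun j hj => ?_
    rw [hG, mem_filter] at hj
    exact hj.2
  obtain ⟨D, hD⟩ : ∃ D, D = r0 / 8 := ⟨_, rfl⟩
  have hD8 : 8 * D ≤ r0 := by omega
  have hD3 : 3 ≤ D := by omega
  obtain ⟨l, hl⟩ : ∃ l : (Fin n → ZMod 2) → ℝ, l = ell (row c) b (∅ : Finset (Fin n))ᶜ G r0 0 :=
    ⟨_, rfl⟩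
  have hpe : IsPseudoExpectation D (Lf l) := by
    rw [hl]
    exact pe hE D hD8
  have hl0 : l 0 = 1 := by
    rw [← Lf_chi l 0]
    have h1 := hpe.1
    have h2 : (fun _ : Fin n → ZMod 2 => (1 : ℝ)) = chi 0 := by
      funext x
      rw [chi_zero]
    rwa [h2] at h1
  have hrow : ∀ j ∈ G, Lf l (vj c b j) = 0 := by
    intro j hj
    rw [Lf_vj l hl0 c b j, hl, ell_row hE (by omega) hj, ← sq, sg_sq]
    norm_num
  refine ⟨Fin G.card × (Fin 2 → ZMod 2), inferInstance, cl c' b', D, Lf l, ?_, ?_, ?_, hpe, ?_⟩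
  · rw [Fintype.card_prod, Fintype.card_fun, ZMod.card, Fintype.card_fin, Fintype.card_fin]
    have := Finset.card_le_univ G
    rw [Fintype.card_fin] at this
    nlinarith
  · intro x
    rw [falsified_eq, Fintype.card_prod, Fintype.card_fun, ZMod.card, Fintype.card_fin,
      Fintype.card_fin]
    have h1 := hb x
    rw [← viol_eq] at h1
    push_cast at h1 ⊢
    have h2 := hviol x
    have h3 : 0 ≤ viol c' b' x := by
      unfold viol
      refine Finset.sum_nonneg fun j _ => ?_
      split_ifs <;> norm_num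
    have h4 : (0 : ℝ) ≤ G.card := Nat.cast_nonneg _
    by_cases h5 : 1 / 8 - δ ≤ 0
    · have : (1 / 8 - δ) * ((G.card : ℝ) * 2 ^ 2) ≤ 0 :=
        mul_nonpos_of_nonpos_of_nonneg h5 (by positivity)
      linarith
    · push Not at h5
      have h6 : (1 / 8 - δ) * ((G.card : ℝ) * 2 ^ 2) ≤ (1 / 8 - δ) * ((M * n : ℝ) * 2 ^ 2) :=
        mul_le_mul_of_nonneg_left (by linarith) h5.le
      nlinarith
  · rw [one_div, inv_mul_eq_div, div_le_iff₀ (by positivity)]
    have h1 : n < (r0 + 1) * K := by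
      have h2 : n < (n / K + 1) * K := by
        have := Nat.lt_div_mul_add (a := n) hKpos
        calc n < n / K * K + K := this
          _ = _ := by ring
      rwa [← hr0] at h2
    have h2 : r0 + 1 ≤ 16 * D := by omega
    have h3 : n ≤ D * (16 * K) := by
      calc n ≤ (r0 + 1) * K := h1.le
        _ ≤ (16 * D) * K := Nat.mul_le_mul_right K h2
        _ = _ := by ring
    exact_mod_cast h3
  · rintro ⟨j, β⟩ u hu
    obtain ⟨T, hT⟩ : ∃ T : Finset (Fin n), T = univ.image (c' j) := ⟨_, rfl⟩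
    have hTc : T.card ≤ D := by
      rw [hT]
      refine Finset.card_image_le.trans ?_
      rw [card_univ, Fintype.card_fin]
      exact hD3
    have hmemT : ∀ s, c' j s ∈ T := fun s => by
      rw [hT]; exact mem_image_of_mem _ (mem_univ s)
    have hcl : ∀ x y : Fin n → ZMod 2, (∀ i ∈ T, x i = y i) →
        (Satisfies x (cl c' b' (j, β)) ↔ Satisfies y (cl c' b' (j, β))) := by
      intro x y h
      unfold Satisfies cl
      refine exists_congr fun s => ?_
      show x (c' j s) = _ ↔ y (c' j s) = _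
      rw [h _ (hmemT s)]
    have hu01 : ∀ x, u x = 0 ∨ u x = 1 := fun x => by
      by_cases h : Satisfies x (cl c' b' (j, β))
      · exact Or.inl ((hu x).1 h)
      · exact Or.inr ((hu x).2 h)
    have huR : Reads u T := by
      intro x y h
      by_cases h1 : Satisfies x (cl c' b' (j, β))
      · rw [(hu x).1 h1, (hu y).1 ((hcl x y h).1 h1)]
      · rw [(hu x).2 h1, (hu y).2 fun h2 => h1 ((hcl x y h).2 h2)]
    have h0 : 0 ≤ Lf l u := pe_01 hpe hTc huR hu01
    have hvR : Reads (vj c b (e j).1) T := by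
      intro x y h
      unfold vj
      have : ∑ s, x (c (e j).1 s) = ∑ s, y (c (e j).1 s) := by
        refine Finset.sum_congr rfl fun s _ => ?_
        have h2 := hmemT s
        rw [hc'] at h2
        exact h _ h2
      rw [this]
    have h1 : 0 ≤ Lf l (vj c b (e j).1 - u) := by
      refine pe_01 hpe hTc (S := T) ?_ ?_
      · intro x y h
        rw [Pi.sub_apply, Pi.sub_apply, hvR x y h, huR x y h]
      · intro x
        rw [Pi.sub_apply]
        by_cases h : Satisfies x (cl c' b' (j, β))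
        · rw [(hu x).1 h, sub_zero]
          unfold vj
          split_ifs
          · left; rfl
          · right; rfl
        · rw [(hu x).2 h]
          have h2 := (not_sat c' b' (j, β) x).1 h
          have h3 : ¬ ∑ s, x (c' j s) = b' j := by
            intro h4
            rw [Finset.sum_congr rfl fun s _ => h2 s] at h4
            have h5 : ∑ s, wrong b' (j, β) s = b' j + 1 := by
              rw [Fin.sum_univ_succ]
              unfold wrong
              rw [Fin.cons_zero]
              simp only [Fin.cons_succ]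
              rw [add_assoc, z2_add_self, add_zero]
            rw [h5] at h4
            revert h4
            generalize b' j = z
            revert z
            decide
          left
          unfold vj
          rw [if_neg]
          · norm_num
          · intro h4
            apply h3
            rw [hc', hb']
            exact h4
    rw [map_sub, hrow _ (e j).2] at h1
    linarith

end Pool.Agent.TH700.UG
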