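import Pool.Agent.W888.GX.Mix
import Pool.Agent.H573R3.SL.Defs

set_option autoImplicit false

/-!
# Local reductions from 3-SAT to unique games: definitions
-/

namespace Pool.Agent.TH700.UG

open Finset Pool.Agent.W888.GX

/-- The value `f x` depends only on the variables in `S`. -/
def Reads {n : ℕ} {β : Type} (f : (Fin n → ZMod 2) → β) (S : Finset (Fin n)) : Prop :=
  ∀ x y : Fin n → ZMod 2, (∀ i ∈ S, x i = y i) → f x = f y

/-- The assignment `x` satisfies all clauses of `F` all of whose variables are in `S`. -/
def SatOn {n k : ℕ} {I : Type} (F : I → Clause k n) (S : Finset (Fin n))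
    (x : Fin n → ZMod 2) : Prop :=
  ∀ i, (∀ l, (F i l).1 ∈ S) → Satisfies x (F i)

/-- The number of edges which the labelling `x` violates in the unique game with the edges
`(s e, t e)` and the constraints `π e`. -/
def violated {V A E : Type} [Fintype E] [DecidableEq A] (s t : E → V) (π : E → Equiv.Perm A)
    (x : V → A) : ℕ :=
  (univ.filter fun e => π e (x (s e)) ≠ x (t e)).card

/-- The formula `F` is represented in the unique game `(s, t, π)` with locality `d` and completeness
`1 - ε`: every assignment `x` of the variables has an honest labelling `enc x`, each label of which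
depends on at most `d` of the variables, and the number of violated edges is

`violated (enc x) = ε |E| - ∑ p, g p x`,

where each term `g p x` depends on a set `T p` of at most `d` variables and is nonnegative if
`x` satisfies the clauses of `F` inside `T p`. So if `x` satisfies `F` then the honest labelling
violates at most `ε |E|` edges, and this can be checked locally. (If the edges are partitioned into
gadgets and the honest labelling of every locally satisfying assignment violates at most a fraction
`ε` of the edges of each gadget, then take `g p x = ε |E_p| - (violated edges in E_p)`.) -/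
def Represents {n k : ℕ} {I V A E : Type} [Fintype E] [DecidableEq A] (F : I → Clause k n) (d : ℕ)
    (ε : ℝ) (s t : E → V) (π : E → Equiv.Perm A) : Prop :=
  ∃ (enc : (Fin n → ZMod 2) → V → A) (P : Type) (_ : Fintype P) (T : P → Finset (Fin n))
    (g : P → (Fin n → ZMod 2) → ℝ),
    (∀ v, ∃ S : Finset (Fin n), S.card ≤ d ∧ Reads (fun x => enc x v) S) ∧
    (∀ p, (T p).card ≤ d ∧ Reads (g p) (T p) ∧ ∀ x, SatOn F (T p) x → 0 ≤ g p x) ∧
    ∀ x, (violated s t π (enc x) : ℝ) = ε * Fintype.card E - ∑ p, g p x

end Pool.Agent.TH700.UG
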