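import Pool.Agent.TH700.UG.Form
import Pool.Agent.H573R3.SL.All

set_option autoImplicit false

/-!
Local reductions from gap 3-SAT to unique games need large size.
-/

namespace Pool.Agent.TH700.UG

open Finset Pool.Agent.W888.GX
open Pool.Agent.H647R3.UG (IsPE sat)

/-- a game that represents the formula locally has a large pseudo-expectation value -/
theorem pe_value {n k D d : ℕ} {L : ((Fin n → ZMod 2) → ℝ) →ₗ[ℝ] ℝ} {I V A E : Type} [Fintype E]
    [DecidableEq A] (hL : IsPseudoExpectation D L) (F : I → Clause k n)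
    (hF : ∀ i, ∀ u : (Fin n → ZMod 2) → ℝ, (∀ x, (Satisfies x (F i) → u x = 0) ∧
      (¬ Satisfies x (F i) → u x = 1)) → L u = 0) (hd : d ≤ D) (ε : ℝ)
    (s t : E → V) (π : E → Equiv.Perm A) (enc : (Fin n → ZMod 2) → V → A)
    (P : Type) [Fintype P] (T : P → Finset (Fin n)) (g : P → (Fin n → ZMod 2) → ℝ)
    (hg : ∀ p, (T p).card ≤ d ∧ Reads (g p) (T p) ∧ ∀ x, SatOn F (T p) x → 0 ≤ g p x)
    (hv : ∀ x, (violated s t π (enc x) : ℝ) = ε * Fintype.card E - ∑ p, g p x) :
    (1 - ε) * (Fintype.card E : ℝ) ≤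
      ∑ e, (L.comp (LinearMap.funLeft ℝ ℝ enc)) (sat (s e) (t e) (π e)) := by
  classical
  have h1 : ∑ e, (L.comp (LinearMap.funLeft ℝ ℝ enc)) (sat (s e) (t e) (π e)) =
      L (∑ e, (sat (s e) (t e) (π e)) ∘ enc) := by
    rw [map_sum]
    rfl
  have h2 : (∑ e, (sat (s e) (t e) (π e)) ∘ enc) =
      (((1 - ε) * (Fintype.card E : ℝ)) • fun _ => (1 : ℝ)) + ∑ p, g p := by
    funext x
    rw [Finset.sum_apply, Pi.add_apply, Pi.smul_apply, smul_eq_mul, mul_one, Finset.sum_apply]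
    have h3 := hv x
    have h4 : (violated s t π (enc x) : ℝ) = Fintype.card E -
        ∑ e, ((sat (s e) (t e) (π e)) ∘ enc) x := by
      have h5 : (Fintype.card E : ℝ) = ∑ _e : E, (1 : ℝ) := by
        rw [Finset.sum_const, card_univ, nsmul_eq_mul, mul_one]
      rw [h5, ← Finset.sum_sub_distrib]
      unfold violated
      rw [Finset.card_filter]
      push_cast
      refine Finset.sum_congr rfl fun e _ => ?_
      rw [Function.comp_apply]
      unfold sat
      by_cases h : π e (enc x (s e)) = enc x (t e)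
      · rw [if_neg (not_not.2 h), if_pos h]; norm_num
      · rw [if_pos h, if_neg h]; norm_num
    linarith
  rw [h1, h2, map_add, map_smul, hL.1, smul_eq_mul, mul_one, map_sum]
  have h3 : 0 ≤ ∑ p, L (g p) := Finset.sum_nonneg fun p _ =>
    pe_local hL F hF (T p) ((hg p).1.trans hd) (g p) (hg p).2.1 (hg p).2.2
  linarith

/-- main theorem -/
theorem main : ∃ C : ℝ, 0 < C ∧ ∀ δ : ℝ, 0 < δ →
    ∃ M : ℕ, 1 ≤ M ∧ ∃ c : ℝ, 0 < c ∧ ∃ n₀ : ℕ, ∀ n : ℕ, n₀ ≤ n →
      ∃ (I : Type) (_ : Fintype I) (F : I → Clause 3 n),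
        Fintype.card I ≤ M * n ∧
        (∀ x, (1 / 8 - δ) * (Fintype.card I : ℝ) ≤ (falsified F x : ℝ)) ∧
        ∀ (γ ε : ℝ) (d : ℕ) (V A E : Type) [Fintype V] [Fintype A] [DecidableEq A] [Fintype E]
          (s t : E → V) (π : E → Equiv.Perm A), 0 < ε → ε ≤ γ → γ < 1 → 1 ≤ d →
          Represents F d ε s t π →
          C / γ ^ 4 * (Fintype.card V : ℝ) ^ (C / γ ^ 4 * (ε * Real.log (2 / ε))) * d ≤ c * n →
          ∃ x : V → A, (violated s t π x : ℝ) ≤ γ * Fintype.card E := by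
  classical
  obtain ⟨C0, hC0, hmain⟩ := Pool.Agent.H573R3.SL.all.1
  obtain ⟨C, hC⟩ : ∃ C : ℝ, C = max C0 1 := ⟨_, rfl⟩
  have hC1 : 1 ≤ C := by rw [hC]; exact le_max_right _ _
  have hCC : C0 ≤ C := by rw [hC]; exact le_max_left _ _
  refine ⟨C, by linarith, fun δ hδ => ?_⟩
  obtain ⟨M, hM, c0, hc0, n0, hn0⟩ := exists_formula δ hδ
  refine ⟨M, hM, c0 / 2, by positivity, n0, fun n hn => ?_⟩
  obtain ⟨I, hI, F, D, L, hcard, hfar, hD, hL, hF⟩ := hn0 n hn
  refine ⟨I, hI, F, hcard, hfar, ?_⟩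
  intro γ ε d V A E _ _ _ _ s t π hε hεγ hγ1 hd hR hsize
  have hγ : 0 < γ := lt_of_lt_of_le hε hεγ
  obtain ⟨enc, P, hP, T, g, henc, hg, hv⟩ := hR
  by_cases hE : IsEmpty E
  · refine ⟨enc 0, ?_⟩
    have h1 : violated s t π (enc 0) = 0 := by
      unfold violated
      rw [Finset.card_eq_zero, Finset.filter_eq_empty_iff]
      intro e
      exact (hE.false e).elim
    rw [h1]
    have : (0 : ℝ) ≤ Fintype.card E := Nat.cast_nonneg _
    push_cast
    positivity
  · rw [not_isEmpty_iff] at hE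
    have hV : Nonempty V := hE.map s
    have hN : (1 : ℝ) ≤ Fintype.card V := by
      exact_mod_cast Fintype.card_pos
    have hd0 : (0 : ℝ) < d := by exact_mod_cast hd
    have hγ4 : 0 < γ ^ 4 := by positivity
    have hγ41 : γ ^ 4 ≤ 1 := pow_le_one₀ hγ.le hγ1.le
    have hlog : 0 ≤ ε * Real.log (2 / ε) := by
      refine mul_nonneg hε.le (Real.log_nonneg ?_)
      rw [le_div_iff₀ hε]
      linarith
    obtain ⟨B, hB⟩ : ∃ B : ℝ, B = C / γ ^ 4 *
        (Fintype.card V : ℝ) ^ (C / γ ^ 4 * (ε * Real.log (2 / ε))) := ⟨_, rfl⟩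
    rw [← hB] at hsize
    have hCγ : C0 / γ ^ 4 ≤ C / γ ^ 4 := div_le_div_of_nonneg_right hCC hγ4.le
    have hCγ1 : 1 ≤ C / γ ^ 4 := by
      rw [le_div_iff₀ hγ4]
      linarith
    have hB1 : 1 ≤ B := by
      rw [hB]
      have h1 : (1 : ℝ) ≤ (Fintype.card V : ℝ) ^ (C / γ ^ 4 * (ε * Real.log (2 / ε))) :=
        Real.one_le_rpow hN (mul_nonneg (by linarith) hlog)
      nlinarith
    have hB0 : C0 / γ ^ 4 * (Fintype.card V : ℝ) ^ (C0 / γ ^ 4 * (ε * Real.log (2 / ε))) ≤ B := by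
      rw [hB]
      have h1 : (Fintype.card V : ℝ) ^ (C0 / γ ^ 4 * (ε * Real.log (2 / ε))) ≤
          (Fintype.card V : ℝ) ^ (C / γ ^ 4 * (ε * Real.log (2 / ε))) :=
        Real.rpow_le_rpow_of_exponent_le hN (mul_le_mul_of_nonneg_right hCγ hlog)
      exact mul_le_mul hCγ h1 (by positivity) (by positivity)
    -- the degree
    obtain ⟨D', hD'⟩ : ∃ D' : ℕ, D' = ⌊c0 * n / d⌋₊ := ⟨_, rfl⟩
    have hfl : (D' : ℝ) ≤ c0 * n / d := by
      rw [hD']
      exact Nat.floor_le (by positivity)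
    have hfl2 : c0 * n / d - 1 < D' := by
      rw [hD']
      exact Nat.sub_one_lt_floor _
    have h2 : 2 * B ≤ c0 * n / d := by
      rw [le_div_iff₀ hd0]
      nlinarith
    have hBD : B ≤ D' := by linarith
    have hD'd : D' * d ≤ D := by
      have h3 : ((D' * d : ℕ) : ℝ) ≤ D := by
        push_cast
        rw [le_div_iff₀ hd0] at hfl
        exact hfl.trans hD
      exact_mod_cast h3
    have hD1 : 1 ≤ D' := by
      have h3 : (1 : ℝ) ≤ D' := hB1.trans hBD
      exact_mod_cast h3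
    have hdD : d ≤ D := by nlinarith
    have hPE := pe_comp (D' := D') hL enc henc hD'd
    obtain ⟨x, hx⟩ := hmain γ hγ hγ1 V A E s t π ε D' _ hε hεγ (hB0.trans hBD) hPE
      (pe_value hL F hF hdD ε s t π enc P T g hg hv)
    refine ⟨x, ?_⟩
    have h5 : (violated s t π x : ℝ) + ((univ.filter fun e => π e (x (s e)) = x (t e)).card : ℝ) =
        Fintype.card E := by
      unfold violated
      have h6 := Finset.card_filter_add_card_filter_not (s := (univ : Finset E))
        (fun e => π e (x (s e)) = x (t e))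
      rw [card_univ] at h6
      have h7 : ((univ.filter fun e => π e (x (s e)) = x (t e)).card +
        (univ.filter fun e => ¬ π e (x (s e)) = x (t e)).card : ℝ) = Fintype.card E := by
        exact_mod_cast h6
      linarith
    linarith

end Pool.Agent.TH700.UG
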