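import Pool.Agent.TH700.UG.Defs

set_option autoImplicit false

/-!
Pseudo-expectations of formulas: local functions, and composition with local encodings.
-/

namespace Pool.Agent.TH700.UG

open Finset Pool.Agent.W888.GX
open Pool.Agent.H647R3.UG (IsPE LowDeg)

section

variable {n D : ℕ} {L : ((Fin n → ZMod 2) → ℝ) →ₗ[ℝ] ℝ}

lemma mem_low {f : (Fin n → ZMod 2) → ℝ} {S : Finset (Fin n)} (hS : S.card ≤ D)
    (hf : Reads f S) : f ∈ LowDegree (Fin n) (ZMod 2) D :=
  Submodule.subset_span ⟨S, hS, hf⟩

/-- zero-one functions of few variables have nonnegative pseudo-expectation -/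
lemma pe_01 (hL : IsPseudoExpectation D L) {f : (Fin n → ZMod 2) → ℝ} {S : Finset (Fin n)}
    (hS : S.card ≤ D) (hf : Reads f S) (h01 : ∀ x, f x = 0 ∨ f x = 1) : 0 ≤ L f := by
  have h1 := hL.2 f (mem_low hS hf)
  have h2 : (fun x => f x ^ 2) = f := by
    funext x
    rcases h01 x with h | h <;> rw [h] <;> norm_num
  rwa [h2] at h1

/-- restriction of an assignment -/
def restr (T : Finset (Fin n)) (x : Fin n → ZMod 2) : Fin n → ZMod 2 :=
  fun i => if i ∈ T then x i else 0

lemma restr_apply (T : Finset (Fin n)) (x : Fin n → ZMod 2) {i : Fin n} (hi : i ∈ T) :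
    restr T x i = x i := if_pos hi

lemma restr_congr (T : Finset (Fin n)) {x y : Fin n → ZMod 2} (h : ∀ i ∈ T, x i = y i) :
    restr T x = restr T y := by
  funext i
  unfold restr
  split_ifs with hi
  · exact h i hi
  · rfl

/-- A local function which is nonnegative on the locally satisfying assignments has nonnegative
pseudo-expectation. -/
theorem pe_local {k : ℕ} {I : Type} (hL : IsPseudoExpectation D L) (F : I → Clause k n)
    (hF : ∀ i, ∀ u : (Fin n → ZMod 2) → ℝ, (∀ x, (Satisfies x (F i) → u x = 0) ∧
      (¬ Satisfies x (F i) → u x = 1)) → L u = 0)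
    (T : Finset (Fin n)) (hT : T.card ≤ D) (g : (Fin n → ZMod 2) → ℝ) (hg : Reads g T)
    (hpos : ∀ x, SatOn F T x → 0 ≤ g x) : 0 ≤ L g := by
  classical
  have hdec : g = ∑ α ∈ univ.image (restr T), g α • fun x => if restr T x = α then (1 : ℝ) else 0 := by
    funext x
    rw [Finset.sum_apply, Finset.sum_eq_single (restr T x)]
    · rw [Pi.smul_apply, if_pos rfl, smul_eq_mul, mul_one]
      exact hg x (restr T x) fun i hi => (restr_apply T x hi).symm
    · intro α _ hα
      rw [Pi.smul_apply, if_neg (Ne.symm hα), smul_zero]
    · intro h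
      exact absurd (mem_image_of_mem _ (mem_univ x)) h
  rw [hdec, map_sum]
  refine Finset.sum_nonneg fun α hα => ?_
  rw [map_smul, smul_eq_mul]
  have hread : Reads (fun x => if restr T x = α then (1 : ℝ) else 0) T := by
    intro x y h
    show (if restr T x = α then (1 : ℝ) else 0) = if restr T y = α then (1 : ℝ) else 0
    rw [restr_congr T h]
  have h0 : 0 ≤ L fun x => if restr T x = α then (1 : ℝ) else 0 :=
    pe_01 hL hT hread fun x => by
      by_cases h : restr T x = α
      · right; exact if_pos h
      · left; exact if_neg h
  by_cases hs : SatOn F T α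
  · exact mul_nonneg (hpos α hs) h0
  · have h1 : L (fun x => if restr T x = α then (1 : ℝ) else 0) = 0 := by
      unfold SatOn at hs
      push Not at hs
      obtain ⟨i, hi, hsat⟩ := hs
      obtain ⟨u, hu⟩ : ∃ u : (Fin n → ZMod 2) → ℝ,
          u = fun x => if Satisfies x (F i) then 0 else 1 := ⟨_, rfl⟩
      have hu0 : L u = 0 := hF i u fun x => by
        rw [hu]
        exact ⟨fun h => if_pos h, fun h => if_neg h⟩
      have hloc : ∀ x y : Fin n → ZMod 2, (∀ j ∈ T, x j = y j) →
          (Satisfies x (F i) ↔ Satisfies y (F i)) := by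
        intro x y h
        unfold Satisfies
        refine exists_congr fun l => ?_
        rw [h _ (hi l)]
      have h2 : 0 ≤ L (u - fun x => if restr T x = α then (1 : ℝ) else 0) := by
        refine pe_01 hL hT (S := T) ?_ ?_
        · intro x y h
          have h3 := hread x y h
          beta_reduce at h3
          have h4 : u x = u y := by
            rw [hu]
            beta_reduce
            simp only [hloc x y h]
          rw [Pi.sub_apply, Pi.sub_apply, h3, h4]
        · intro x
          rw [Pi.sub_apply, hu]
          beta_reduce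
          by_cases hx : restr T x = α
          · have : ¬ Satisfies x (F i) := by
              intro h
              refine hsat ((hloc x α fun j hj => ?_).1 h)
              rw [← hx, restr_apply T x hj]
            rw [if_pos hx, if_neg this]
            left; norm_num
          · rw [if_neg hx]
            by_cases h : Satisfies x (F i)
            · rw [if_pos h]; left; norm_num
            · rw [if_neg h]; right; norm_num
      rw [map_sub, hu0] at h2
      linarith
    rw [h1, mul_zero]

/-- composition with a local encoding -/
theorem pe_comp {V A : Type} {d D' : ℕ} (hL : IsPseudoExpectation D L)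
    (enc : (Fin n → ZMod 2) → V → A)
    (henc : ∀ v, ∃ S : Finset (Fin n), S.card ≤ d ∧ Reads (fun x => enc x v) S)
    (h : D' * d ≤ D) : IsPE D' (L.comp (LinearMap.funLeft ℝ ℝ enc)) := by
  classical
  choose S hS hR using henc
  refine ⟨?_, ?_⟩
  · rw [LinearMap.comp_apply]
    exact hL.1
  · intro f hf
    rw [LinearMap.comp_apply]
    have hmem : f ∘ enc ∈ LowDegree (Fin n) (ZMod 2) D := by
      unfold LowDeg at hf
      induction hf using Submodule.span_induction with
      | mem f hf =>
        obtain ⟨W, hW, hf⟩ := hf
        refine mem_low (S := W.biUnion S) ?_ ?_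
        · refine card_biUnion_le.trans (le_trans (Finset.sum_le_card_nsmul W _ d fun v _ => hS v) ?_)
          rw [smul_eq_mul]
          exact (Nat.mul_le_mul_right d hW).trans h
        · intro x y hxy
          refine hf _ _ fun v hv => ?_
          exact hR v x y fun i hi => hxy i (mem_biUnion.2 ⟨v, hv, hi⟩)
      | zero => exact Submodule.zero_mem _
      | add f g _ _ hf hg => exact Submodule.add_mem _ hf hg
      | smul a f _ hf => exact Submodule.smul_mem _ a hf
    have h1 := hL.2 _ hmem
    have h2 : (LinearMap.funLeft ℝ ℝ enc) (fun x => f x * f x) = fun x => (f ∘ enc) x ^ 2 := by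
      funext x
      rw [LinearMap.funLeft_apply, Function.comp_apply, sq]
    rw [h2]
    exact h1

end

end Pool.Agent.TH700.UG
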